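import Pool.Agent.Helper87.NSL.LemA

/-! THE CLOSING LEMMA, general form: two labels with forms which have the cost property, over two points in the same window
of a leaf; each form is bounded on the whole window, so it is bounded at the point of the other label; the forms are then
comparable up to the cost of the two informations (label - point of the other side). The cost is linear in the
informations. -/

set_option autoImplicit false

namespace Pool.Agent.Helper38.NJ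

open Finset Filter Topology Matrix Pool.Agent.Helper69.RK Pool.Agent.Helper31.EC Pool.Agent.Helper31.EC.Sp
open Pool.Agent.Helper40.EL
open Pool.Agent.Helper84.MT Pool.Agent.Helper3.LF Pool.Agent.Helper59.LF Pool.Agent.Helper89.LX
open Pool.Agent.Helper48.NS Pool.Agent.Helper48.LIP Pool.Agent.Helper38.NSL Pool.Agent.Helper87.NSL
open Pool.Agent.Helper95.LF (PdM)

noncomputable section

variable {S X : Sp} {M D : ℕ} {E E' E₁ E₂ : ℕ → ℕ} {ι ι' : Type}

/-- the point `q` is in the window `c` of the leaf `l` (up to sub-exponential multiples of the finest scale) -/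
def InW {Q : S.VV M} (l : Leaf S Q E) (c : ℝ) (T' : ℕ → FSp) (o : ∀ k, (T' k).Ω → (S.F k).Ω)
    (q : ∀ k, (T' k).Ω → Fin M → ℝ) : Prop :=
  ∃ K : ℕ → ℝ, S.Sub K ∧ (∀ᶠ k in UF, 1 ≤ K k) ∧ ∀ᶠ k in UF, ∀ w, (T' k).μ w ≠ 0 →
    ∃ y : Fin l.e → ℝ, (∀ j, |y j - l.Y.v k (o k w) j| < S.dl c k) ∧
      ∀ j, |q k w j - l.F k (o k w) y j| + S.dl 1 k ≤ K k * S.dl 1 k

/-- a point of the same class of the window -/
theorem InW_of_agree {Q : S.VV M} (l : Leaf S Q E) {c : ℝ} {T' : ℕ → FSp} (o o' : ∀ k, (T' k).Ω → (S.F k).Ω)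
    (h : ∀ᶠ k in UF, ∀ w, (T' k).μ w ≠ 0 → (S.F k).μ (o k w) ≠ 0 ∧ (S.F k).μ (o' k w) ≠ 0 ∧
      (S.F k).Z (o' k w) (o k w) ∧ l.La k (o' k w) (o k w) ∧ Setoid.ker (l.Y.cellv c k) (o' k w) (o k w)) :
    InW l c T' o (fun k w => Q.v k (o' k w)) := by
  obtain ⟨K2, hK2, hK21, hn⟩ := pt_near l
  refine ⟨K2, hK2, hK21, ?_⟩
  filter_upwards [h, hn, l.fn] with k a1 a4 a5 w hw
  obtain ⟨b1, b2, b3, b4, b5⟩ := a1 w hw
  refine ⟨l.Y.v k (o' k w), fun j => ?_, fun j => ?_⟩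
  · have hdc := S.dl_pos c k
    have d1 : ⌊l.Y.v k (o' k w) j / S.dl c k⌋ = ⌊l.Y.v k (o k w) j / S.dl c k⌋ := congrFun b5 j
    have d2 := Int.abs_sub_lt_one_of_floor_eq_floor d1
    rwa [← sub_div, abs_div, abs_of_pos hdc, div_lt_iff₀ hdc, one_mul] at d2
  · have e2 : l.F k (o' k w) = l.F k (o k w) := a5 _ _ b2 b1 b3 b4
    rw [← e2]
    exact (a4 _ b2 j).1

/-- a form without leak at the window is typically bounded at the points of the window -/
theorem sm_pt {Q : S.VV M} (l : Leaf S Q E) {c : ℝ} (h0 : 0 ≤ c) (h1 : c < 1) {x : ∀ k, FD (S.F k) (Mon M D)}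
    (hF : FmG Q x) (hL : Nul S (fun k => (x k).l.leak (l.win c k))) (T' : ℕ → FSp)
    (r : ∀ k, FPj (T' k) (x k).l.T) (q : ∀ k, (T' k).Ω → Fin M → ℝ)
    (hq : InW l c T' (fun k w => (x k).l.p.π ((r k).π w)) q) (η : ℝ) (hη : 0 < η) :
    ∀ᶠ k in UF, (T' k).pb (fun w => ¬ phi (S.dl 1 k) ((x k).g ((r k).π w)) (q k w) ≤ 2 ^ (η * (S.F k).n)) ≤ η := by
  obtain ⟨K', hK', hT⟩ := typ_phi l h0 h1 (fun k => (x k).l) hL (D := D) (fun k => (x k).g)
    (by
      filter_upwards [hF.1] with k hk w hw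
      exact (hk w hw).pdM)
    (Eventually.of_forall fun k w w' h h' hZ hV _ => ((x k).meas w w' h h' hV hZ).1)
  obtain ⟨K2, hK2, hK21, hn⟩ := hq
  have hs : S.Sub (fun k => cM M D (K2 k) * K' k) := (cM_Sub M D hK2 hK21).mul hK'
  have hT' : Tendsto (fun k => (x k).l.T.pb (fun w => ¬ ∀ y : Fin l.e → ℝ,
      (∀ j, |y j - l.Y.v k ((x k).l.p.π w) j| < S.dl c k) →
        phi (S.dl 1 k) ((x k).g w) (l.F k ((x k).l.p.π w) y) ≤
          K' k * phi (S.dl 1 k) ((x k).g w) (Q.v k ((x k).l.p.π w)))) UF (𝓝 0) := hT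
  have hη2 : 0 < η / 2 := by linarith
  filter_upwards [hs.eventually_le hη2, hF.2 (η / 2) hη2, hT'.eventually (gt_mem_nhds hη2), hn, hK21,
    hF.1, hK'.1] with k a1 a2 a3 a4 a6 a7 a8
  set good : (x k).l.T.Ω → Prop := fun w => ∀ y : Fin l.e → ℝ,
      (∀ j, |y j - l.Y.v k ((x k).l.p.π w) j| < S.dl c k) →
        phi (S.dl 1 k) ((x k).g w) (l.F k ((x k).l.p.π w) y) ≤
          K' k * phi (S.dl 1 k) ((x k).g w) (Q.v k ((x k).l.p.π w)) with hgood
  set sm : (x k).l.T.Ω → Prop := fun w => (gaq Q D).φ k ((x k).l.p.π w) ((x k).g w) ≤ 2 ^ (η / 2 * (S.F k).n)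
    with hsm
  have h2 : (T' k).pb (fun w => ¬ phi (S.dl 1 k) ((x k).g ((r k).π w)) (q k w) ≤ 2 ^ (η * (S.F k).n)) ≤
      (T' k).pb (fun w => (¬ good ((r k).π w)) ∨ ¬ sm ((r k).π w)) := by
    apply FSp.pb_mono
    intro w hw h3
    by_contra hc
    rw [not_or, not_not, not_not] at hc
    apply h3
    have b1 := (r k).supp w hw
    obtain ⟨y, hy1, hy2⟩ := a4 w hw
    have e1 := hc.1 y hy1
    have hP : PdM ((x k).g ((r k).π w)) := (a7 _ b1).pdM
    have e3 : phi (S.dl 1 k) ((x k).g ((r k).π w)) (q k w) ≤ cM M D (K2 k) *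
        phi (S.dl 1 k) ((x k).g ((r k).π w)) (l.F k ((x k).l.p.π ((r k).π w)) y) :=
      phi_comp ((x k).g ((r k).π w)) hP (S.dl 1 k) (S.dl 1 k) (K2 k) (S.dl_pos 1 k) (S.dl_pos 1 k).le a6 _ _ hy2
    have hcM := cM_one M D a6
    have e4 : phi (S.dl 1 k) ((x k).g ((r k).π w)) (Q.v k ((x k).l.p.π ((r k).π w))) ≤ 2 ^ (η / 2 * (S.F k).n) := hc.2
    have e5 : (2 : ℝ) ^ (η * (S.F k).n) = 2 ^ (η / 2 * (S.F k).n) * 2 ^ (η / 2 * (S.F k).n) := by
      rw [← Real.rpow_add (by norm_num)]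
      congr 1
      ring
    have hp0 : 0 ≤ phi (S.dl 1 k) ((x k).g ((r k).π w)) (Q.v k ((x k).l.p.π ((r k).π w))) :=
      phi_nonneg _ (fun y => hP.nonneg y) _
    calc phi (S.dl 1 k) ((x k).g ((r k).π w)) (q k w)
        ≤ cM M D (K2 k) * (K' k * phi (S.dl 1 k) ((x k).g ((r k).π w)) (Q.v k ((x k).l.p.π ((r k).π w)))) :=
          e3.trans (mul_le_mul_of_nonneg_left e1 (by linarith))
      _ = (cM M D (K2 k) * K' k) * phi (S.dl 1 k) ((x k).g ((r k).π w)) (Q.v k ((x k).l.p.π ((r k).π w))) := by ring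
      _ ≤ 2 ^ (η / 2 * (S.F k).n) * 2 ^ (η / 2 * (S.F k).n) := mul_le_mul (by linarith) e4 hp0 (by positivity)
      _ = 2 ^ (η * (S.F k).n) := e5.symm
  refine h2.trans ((pb_or _ _ _).trans ?_)
  have h3 := pb_push (r k) (fun w => ¬ good w)
  have h4 := pb_push (r k) (fun w => ¬ sm w)
  have h5 := a2
  have h6 : (T' k).pb (fun w => ¬ good ((r k).π w)) = (x k).l.T.pb (fun w => ¬ good w) := h3
  have h7 : (T' k).pb (fun w => ¬ sm ((r k).π w)) = (x k).l.T.pb (fun w => ¬ sm w) := h4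
  rw [h6, h7]
  have h8 : (x k).l.T.pb (fun w => ¬ sm w) ≤ η / 2 := h5
  have h9 : (x k).l.T.pb (fun w => ¬ good w) < η / 2 := a3
  linarith

/-- the information of the label of `y` about the point of `x`, given the label of `x`, on a common extension -/
def inf (Q : S.VV M) (x : ∀ k, FD (S.F k) (Mon M D)) (T' : ℕ → FSp) (r : ∀ k, FPj (T' k) (x k).l.T)
    (V' : ∀ k, Setoid (T' k).Ω) (k : ℕ) : ℝ :=
  I (fc (V' k)) ((r k).map ((x k).l.p.map (ptF Q k))) ((r k).map (x k).l.v) / (S.F k).n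

/-- ONE SIDE: the form of `y` does not exceed the form of `x` -/
theorem clo_side (s : MSys S M E ι) {c : ℝ} {x : ∀ k, FD (S.F k) (Mon M D)} (hC : CostP s D c x) (hF : FmG s.Q x)
    {y : ∀ k, FD (X.F k) (Mon M D)} {QX : X.VV M} (hFy : FmG QX y) (l : Leaf X QX E₁) {c' : ℝ} (h0 : 0 ≤ c') (h1 : c' < 1)
    (hL : Nul X (fun k => (y k).l.leak (l.win c' k))) (hn : ∀ k, (X.F k).n = (S.F k).n)
    (T' : ℕ → FSp) (r : ∀ k, FPj (T' k) (x k).l.T) (r' : ∀ k, FPj (T' k) (y k).l.T)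
    (hr : ∀ k, (T' k).n = (x k).l.T.n)
    (hq : InW l c' T' (fun k w => (y k).l.p.π ((r' k).π w)) (fun k w => s.Q.v k ((x k).l.p.π ((r k).π w))))
    (hU : UB (inf s.Q x T' r (fun k => Setoid.comap (r' k).π (y k).l.V))) (e : ℝ) (he : 0 < e)
    (he1 : e ≤ E D * (1 - c)) :
    e * ul (fun k => (T' k).pb (fun w => ¬ ∀ v, qf ((y k).g ((r' k).π w)) v ≤
      2 ^ (2 * e * (S.F k).n) * qf ((x k).g ((r k).π w)) v)) ≤
      E D * ul (inf s.Q x T' r (fun k => Setoid.comap (r' k).π (y k).l.V)) := by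
  have hdl : ∀ (c : ℝ) (k : ℕ), X.dl c k = S.dl c k := fun c k => by unfold Sp.dl; rw [hn k]
  have key := r2C s hC hF.1 T' r hr (fun k => Setoid.comap (r' k).π (y k).l.V) (fun k w => (y k).g ((r' k).π w)) (by
      intro k w w' hw hw' hV _ hZ
      exact ((y k).meas _ _ ((r' k).supp w hw) ((r' k).supp w' hw') hV (((r' k).hZ w w' hw hw').mp hZ)).1) (by
      filter_upwards [hFy.1] with k hk w hw
      have b := (r' k).supp w hw
      exact ⟨(hk _ b).1, fun v => (hk _ b).psd.2 v⟩) 0 e he he1 (by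
      intro η hη
      filter_upwards [sm_pt l h0 h1 hFy hL T' r' _ hq η hη] with k hk
      have e0 : (2 * 0 + η) * (S.F k).n = η * (X.F k).n := by rw [hn k]; ring
      rw [e0]
      have e1 : X.dl 1 k = S.dl 1 k := hdl 1 k
      rw [e1] at hk
      exact hk) hU
  have e2 : (fun k => (T' k).pb (fun w => ¬ ∀ v, qf ((y k).g ((r' k).π w)) v ≤
      2 ^ (2 * (e + 0) * (S.F k).n) * qf ((x k).g ((r k).π w)) v)) =
      fun k => (T' k).pb (fun w => ¬ ∀ v, qf ((y k).g ((r' k).π w)) v ≤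
      2 ^ (2 * e * (S.F k).n) * qf ((x k).g ((r k).π w)) v) := by
    funext k
    rw [add_zero]
  rw [e2] at key
  exact key

/-- **THE CLOSING LEMMA** -/
theorem clo (s : MSys S M E ι) (t : MSys X M E' ι') (hn : ∀ k, (X.F k).n = (S.F k).n)
    {x : ∀ k, FD (S.F k) (Mon M D)} (hC : CostP s D 0 x) (hF : FmG s.Q x)
    {y : ∀ k, FD (X.F k) (Mon M D)} (hCy : CostP t D 0 y) (hFy : FmG t.Q y)
    (l : Leaf S s.Q E₁) (l' : Leaf X t.Q E₂) {c c' : ℝ} (h0 : 0 ≤ c) (h1 : c < 1) (h0' : 0 ≤ c') (h1' : c' < 1)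
    (hL : Nul S (fun k => (x k).l.leak (l.win c k))) (hL' : Nul X (fun k => (y k).l.leak (l'.win c' k)))
    (T' : ℕ → FSp) (r : ∀ k, FPj (T' k) (x k).l.T) (r' : ∀ k, FPj (T' k) (y k).l.T)
    (hr : ∀ k, (T' k).n = (x k).l.T.n) (hr' : ∀ k, (T' k).n = (y k).l.T.n)
    (hq : InW l c T' (fun k w => (x k).l.p.π ((r k).π w)) (fun k w => t.Q.v k ((y k).l.p.π ((r' k).π w))))
    (hq' : InW l' c' T' (fun k w => (y k).l.p.π ((r' k).π w)) (fun k w => s.Q.v k ((x k).l.p.π ((r k).π w))))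
    (hU : UB (inf s.Q x T' r (fun k => Setoid.comap (r' k).π (y k).l.V)))
    (hU' : UB (inf t.Q y T' r' (fun k => Setoid.comap (r k).π (x k).l.V))) (e : ℝ) (he : 0 < e)
    (he1 : e ≤ E D) (he2 : e ≤ E' D) :
    e * ul (fun k => (T' k).pb (fun w => ¬ Nr (2 * e * (S.F k).n) ((x k).g ((r k).π w)) ((y k).g ((r' k).π w)))) ≤
      E D * ul (inf s.Q x T' r (fun k => Setoid.comap (r' k).π (y k).l.V)) +
      E' D * ul (inf t.Q y T' r' (fun k => Setoid.comap (r k).π (x k).l.V)) := by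
  have k1 := clo_side s hC hF hFy l' h0' h1' hL' hn T' r r' hr hq' hU e he (by linarith)
  have k2 := clo_side t hCy hFy hF l h0 h1 hL (fun k => (hn k).symm) T' r' r hr' hq hU' e he (by linarith)
  have hX : (fun k => (T' k).pb (fun w => ¬ ∀ v, qf ((x k).g ((r k).π w)) v ≤
      2 ^ (2 * e * (X.F k).n) * qf ((y k).g ((r' k).π w)) v)) = fun k => (T' k).pb (fun w => ¬ ∀ v,
      qf ((x k).g ((r k).π w)) v ≤ 2 ^ (2 * e * (S.F k).n) * qf ((y k).g ((r' k).π w)) v) := by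
    funext k
    rw [hn k]
  rw [hX] at k2
  have hb : ∀ (P : ∀ k, (T' k).Ω → Prop), UB (fun k => (T' k).pb (P k)) := fun P =>
    UB_of_nonneg_le (C := 1) (Eventually.of_forall fun k => FSp.pb_nonneg _ _)
      (Eventually.of_forall fun k => FSp.pb_le_one _ _)
  refine le_trans ?_ (add_le_add k1 k2)
  rw [← mul_add]
  apply mul_le_mul_of_nonneg_left _ he.le
  rw [← ul_add (hb _) (hb _)]
  apply ul_mono (hb _) ((hb _).add (hb _))
  refine Eventually.of_forall fun k => ?_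
  have h3 : (T' k).pb (fun w => ¬ Nr (2 * e * (S.F k).n) ((x k).g ((r k).π w)) ((y k).g ((r' k).π w))) ≤
      (T' k).pb (fun w => (¬ ∀ v, qf ((y k).g ((r' k).π w)) v ≤
      2 ^ (2 * e * (S.F k).n) * qf ((x k).g ((r k).π w)) v) ∨ ¬ ∀ v, qf ((x k).g ((r k).π w)) v ≤
      2 ^ (2 * e * (S.F k).n) * qf ((y k).g ((r' k).π w)) v) := by
    apply FSp.pb_mono
    intro w hw h5
    by_contra hc
    rw [not_or, not_not, not_not] at hc
    exact h5 ⟨hc.2, hc.1⟩
  exact h3.trans (pb_or _ _ _)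

end

end Pool.Agent.Helper38.NJ
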