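import Pool.Agent.Helper38.NJ.Zer
import Pool.Agent.Helper38.PUR.Cut
import Pool.Agent.Helper38.PUR.Bad
import Pool.Agent.Helper38.PUR.Pur
import Pool.Agent.Helper81.CPY.Imim
import Pool.Agent.Helper81.CPY.Evn
import Pool.Agent.Helper87.NSL.Aux1
import Pool.Agent.Helper52.MW.Ime

/-! **[ZER']**: a transversal deficient system with a full literal type-label `V0` has an event on all of whose events the
cells of all levels have `v + 1` digits over `V0`. -/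

set_option autoImplicit false

namespace Pool.Agent.Helper38.NJ

open Finset Filter Topology Matrix Pool.Agent.Helper69.RK Pool.Agent.Helper31.EC Pool.Agent.Helper31.EC.Sp
open Pool.Agent.Helper40.EL
open Pool.Agent.Helper84.MT Pool.Agent.Helper3.LF Pool.Agent.Helper59.LF Pool.Agent.Helper89.LX
open Pool.Agent.Helper48.NS Pool.Agent.Helper48.LIP Pool.Agent.Helper38.NSL Pool.Agent.Helper87.NSL
open Pool.Agent.Helper95.LF (PdM)
open Pool.Agent.Helper29.MX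
open Pool.Agent.Helper38.PUR
open Pool.Agent.Helper36.AM (MCl STu)
open Pool.Agent.Helper15.FST
open Pool.Agent.Helper76.DIM (CutF)
open Pool.Agent.Helper81.CPY (pjb)

noncomputable section

variable {S T : Sp} {M N D g r v : ℕ} {E : ℕ → ℕ} {ι : Type}

/-- [CUTN] (helper18): the cuts of the level `b` give a form of volume at most `v` at the level `b`, type-labels -/
def ST_CUTN0 : Prop := ∀ (S : Sp) (N g r v : ℕ) (s : MSys S N (lin g) (Fin r)) (V : ∀ k, Setoid (S.F k).Ω)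
  (σ : Fin v → Fin N) (b : ℝ) (h0 : 0 < b) (h1 : b ≤ 1) (D : ℕ)
  (G : Fin N → ∀ k, (S.F k).Ω → Matrix (Mon (v + 1) D) (Mon (v + 1) D) ℝ), v < N → 1 ≤ D → LK s (rbot S) V →
  CutF V s.Q σ b D G → ∃ x : ∀ k, FD ((S.chg S.tr b h0).F k) (Mon N D),
    KAd (s.trn b h0 h1) (rbot (S.chg S.tr b h0)) D 0 x ∧ vol (s.trn b h0 h1).Q D x ≤ v

/-- digits of a point over a label -/
theorem dg_step {m : ℕ} (y : S.VV m) (l : Lab S) {b : ℝ} (hb : b ≤ 1) :
    H (up1 l (y.dg 1)) ≤ H (up1 l (y.dg b)) + m * (1 - b) := by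
  have h1 := (h_up1_le l (y.dg 1) (y.dg b)).trans (y.h_dg_dg hb)
  have h2 : H (up1 l (y.dg 1)) ≤ H (up1 l (y.dg 1) ⊔ up1 l (y.dg b)) := H_mono le_sup_left
  unfold Pool.Agent.Helper31.EC.h at h1
  linarith

/-- unit directions of the truncation, window `0` -/
theorem ud_trn0 {s : MSys S N E ι} {j : ι} (hw : Pool.Agent.Helper87.NSL.Ud v s j) {b : ℝ} (hb0 : 0 < b) (hb1 : b ≤ 1)
    (ε : ℝ) (hε : 0 < ε) : ∀ᶠ k in UF, (v - ε) * ((S.chg S.tr b hb0).F k).n ≤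
      Pool.Agent.Helper31.EC.h (ptF (s.trn b hb0 hb1).Q k) (((s.trn b hb0 hb1).lf j).win 0 k) := by
  filter_upwards [Ud_self hw le_rfl hb0.le hb1 (ε * b) (by positivity)] with k hk
  have hpt : ptF (s.trn b hb0 hb1).Q k = fc (F := (S.chg S.tr b hb0).F k) (Setoid.ker (s.Q.cellv b k)) := by
    have e1 : (s.Q.chg S.tr b hb0).cellv 1 k = s.Q.cellv (b * 1) k := Pool.Agent.Helper52.SL.cellv_chg s.Q b hb0 1 k
    rw [mul_one] at e1
    exact congrArg (fun f => fc (F := (S.chg S.tr b hb0).F k) (Setoid.ker f)) e1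
  have e3 : ((s.lf j).Y.chg S.tr b hb0).cellv 0 k = (s.lf j).Y.cellv 0 k := by
    rw [Pool.Agent.Helper52.SL.cellv_chg, mul_zero]
  have e4 : ((s.trn b hb0 hb1).lf j).win 0 k =
      fc (F := (S.chg S.tr b hb0).F k) ((s.lf j).La k ⊓ Setoid.ker ((s.lf j).Y.cellv 0 k)) :=
    congrArg (fun f => fc (F := (S.chg S.tr b hb0).F k) ((s.lf j).La k ⊓ Setoid.ker f)) e3
  have e5 : Pool.Agent.Helper31.EC.h (fc (F := (S.chg S.tr b hb0).F k) (Setoid.ker (s.Q.cellv b k)))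
      (fc (F := (S.chg S.tr b hb0).F k) ((s.lf j).La k ⊓ Setoid.ker ((s.lf j).Y.cellv 0 k))) =
      Pool.Agent.Helper31.EC.h (fc (Setoid.ker (s.Q.cellv b k))) ((s.lf j).win 0 k) :=
    h_chg_top (F := S.F k) b hb0 _ _
  have e6 : ((S.chg S.tr b hb0).F k).n = b * (S.F k).n := rfl
  rw [hpt, e4, e5, e6]
  refine le_trans (le_of_eq ?_) hk
  ring

/-- transversality at the level `b` passes to events of extensions -/
theorem nhb_im {s : MSys S N E ι} {γ b : ℝ} (h : NHb s γ b) (p : Pj T S) (A : ∀ k, (T.F k).Ω → Prop)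
    (hA : 0 < ul (T.pr A)) : NHb (s.im p A hA) γ b := fun h0 h1 D => (h h0 h1 D).im (pjb p S.tr b h0) A hA

/-- **[ZER']** -/
theorem zer' (hC : ST_CUTN0) (hST : ∀ m, m < N → STu m) {C : MCl N} {e0 : ℕ} {F : Fin N → ℝ} {d : ℝ} (hg : 1 ≤ g)
    (hr : 0 < r) (hd : 0 < d) (hF : ∀ j, 0 ≤ F j ∧ F j < 1)
    (hgam : ∀ b : ℝ, 0 < b → b ≤ 1 → gam F b < (N - v) * b) {S : Sp} {s : MSys S N (lin g) (Fin r)}
    (hs : JT C v g r e0 F d S s) (hD : 1 ≤ D) {V₀ : Rsl S} (hf : Ful s D 0 0 V₀) :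
    ∃ (T : Sp) (p : Pj T S) (A : ∀ k, (T.F k).Ω → Prop) (hA : 0 < ul (T.pr A)),
      ∀ (T' : Sp) (p' : Pj T' (Sp.im p A)) (A' : ∀ k, (T'.F k).Ω → Prop) (hA' : 0 < ul (T'.pr A')) (b : ℝ),
        0 ≤ b → b ≤ 1 → ((v : ℝ) + 1) * b ≤
          H (up1 (Lab.ofZ (S := Sp.im p' A') V₀) (((s.im p A hA).im p' A' hA').Q.dg b)) := by
  obtain ⟨x, hx0, hx1, hx2⟩ := hf
  have hED : ∀ D, 1 ≤ Pool.Agent.Helper84.MT.lin g D := fun D => by
    unfold Pool.Agent.Helper84.MT.lin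
    exact Nat.mul_pos hg (Nat.succ_pos D)
  -- the label
  have hV0 : LK s (rbot S) V₀ := by
    refine ⟨Eventually.of_forall fun k ω ω' h => ?_, ?_⟩
    · obtain rfl : ω = ω' := h.1
      exact (V₀ k).refl _
    · have h1 := Gau.AdfK.dm (gaq s.Q D) hx1
      have e1 : (fun k => (x k).l) = Lab.ofZ V₀ := funext hx0
      rw [e1] at h1
      exact h1
  -- a non-trivial form
  have hG1 : 0 ≤ gam F 1 := Finset.sum_nonneg fun j _ => le_min (hF j).1 zero_le_one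
  have hvol : vol s.Q D x < N := by
    have h1 : H (s.Q.dg 1) ≤ N - gam F 1 - d :=
      Pool.Agent.Helper52.MW.AllE_self (P := fun _ t _ => H (t.Q.dg 1) ≤ N - gam F 1 - d) (R := rbot S) hs.dfc
    have h2 := H_up1_le (Lab.ofZ V₀) (s.Q.dg 1)
    linarith
  obtain ⟨y, hy⟩ := (gaq s.Q D).exists_optfK (KZ (rbot S)) (cndR s (rbot S) 0)
  have hyv : vol s.Q D y < N := by
    have h2 := volK_le_of hx1
    have h3 := volK_of_opt (s := s) (R := rbot S) (D := D) (c := 0) hy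
    linarith
  obtain ⟨A, hA, hbad⟩ := st_bad S N g r s (rbot S) D y hg hD (fun k => bot_le) hy hyv
  obtain ⟨S1, s1, R1, ⟨⟨hR1, T, p, B, hB, e⟩, -⟩, -, u, σ, b, V, hu, hσ, hb, hb1, hLK, hfull, hrec⟩ := pur (ι := Fin r)
    (C := fun _ _ _ => True) (fun _ => trivial) hST (fun S' s' R' => (R' = rbot S' ∧
      ∃ (T : Sp) (p : Pj T S) (B : ∀ k, (T.F k).Ω → Prop) (hB : 0 < ul (T.pr B)),
        (⟨S', s'⟩ : Σ S : Sp, MSys S N (lin g) (Fin r)) = ⟨Sp.im p B, s.im p B hB⟩) ∧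
      Rch (fun _ _ _ => True) (Pr.im ⟨S, s, rbot S⟩ A hA) ⟨S', s', R'⟩)
    (by
      rintro S' s' R' ⟨⟨h1, T, p, B, hB, e⟩, h2⟩ T' p' _ B' hB'
      cases e
      obtain ⟨W, q, G, hG, e'⟩ := Pool.Agent.Helper81.CPY.im_im (E := lin g) (M := N) (ι := Fin r) p B hB p' B' hB'
      exact ⟨⟨h1, W, q, G, hG, e' s⟩, Rch.im h2 p' trivial B' hB'⟩)
    (fun S' s' R' h k => by
      rw [h.1.1]
      exact bot_le)
    (fun S' s' R' h => hbad ⟨S', s', R'⟩ h.2) (Sp.im (Pj.id S) A) (s.im (Pj.id S) A hA) (rbot S)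
    ⟨⟨rfl, S, Pj.id S, A, hA, rfl⟩, Rch.refl _⟩
  subst hR1
  cases e
  refine ⟨T, p, B, hB, ?_⟩
  have hfull0 := hfull ⟨Sp.im p B, s.im p B hB, rbot _⟩ (Rch.refl _) (Lab.ofZ V) (fun i => hLK.2 (some i))
    (Pool.Agent.Helper49.KL.kz_ofZ hLK.1)
  obtain ⟨D1, G, hD1, hcut⟩ := st_cutf (Sp.im p B) N g r u (s.im p B hB) (rbot _) V σ b hu hσ hb hLK hfull0 hrec
  have hvu : v < u := by
    by_contra hcon
    push Not at hcon
    obtain ⟨z, hz1, hz2⟩ := hC (Sp.im p B) N g r u (s.im p B hB) V σ b hb hb1.le D1 G hu hD1 hLK hcut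
    have hne : Nonempty (Fin r) := ⟨⟨0, hr⟩⟩
    have hgb : 0 ≤ gam F b := Finset.sum_nonneg fun j _ => le_min (hF j).1 hb.le
    have hN := nhb_im (hs.nh b hb hb1.le) p B hB hb hb1.le D1
    have h1 := zer0 (S := (Sp.im p B).chg (Sp.im p B).tr b hb) (s := (s.im p B hB).trn b hb hb1.le) (hED D1) hD1
      (R := rbot _) (fun k => bot_le) (C3_nonneg N D1) (div_nonneg hgb hb.le) hN (w := (v : ℝ))
      (fun j ε hε => ud_trn0 (Pool.Agent.Helper87.NSL.Ud.im (hs.inv.2 j) p B hB) hb hb1.le ε hε) hz1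
      (hz2.trans (by exact_mod_cast hcon))
    have h2 := hgam b hb hb1.le
    have h3 : gam F b / b < N - v := (div_lt_iff₀ hb).mpr h2
    linarith
  intro T' p' A' hA' b' h0 h1
  have hL : LK (S := Sp.im p' A') ((s.im p B hB).im p' A' hA') (rbot _) V₀ := (hV0.im p B hB).im p' A' hA'
  let t₁ : Pr N g (Fin r) := ⟨Sp.im p B, s.im p B hB, rbot (Sp.im p B)⟩
  have h2 := hfull (Pr.imp t₁ p' A' hA') (Rch.im (C := fun _ _ _ => True) (t := t₁) (t' := t₁) (Rch.refl t₁) p' trivial A' hA')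
    (Lab.ofZ (S := Sp.im p' A') V₀) (fun i => hL.2 (some i)) (Pool.Agent.Helper49.KL.kz_ofZ hL.1)
  have h3 := dg_step (prs ((s.im p B hB).im p' A' hA') σ).Q (Lab.ofZ (S := Sp.im p' A') V₀) h1
  have h4 : H (up1 (Lab.ofZ (S := Sp.im p' A') V₀) ((prs ((s.im p B hB).im p' A' hA') σ).Q.dg b')) ≤
      H (up1 (Lab.ofZ (S := Sp.im p' A') V₀) (((s.im p B hB).im p' A' hA').Q.dg b')) :=
    H_mono (up1_mono _ (prs_dg_le _ σ b'))
  have h5 : ((v : ℝ) + 1) ≤ u := by exact_mod_cast hvu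
  have h6 : ((v : ℝ) + 1) * b' ≤ u * b' := mul_le_mul_of_nonneg_right h5 h0
  have h7 : (u : ℝ) ≤ H (up1 (Lab.ofZ (S := Sp.im p' A') V₀) ((prs ((s.im p B hB).im p' A' hA') σ).Q.dg 1)) := h2
  linarith

end

end Pool.Agent.Helper38.NJ
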