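import Pool.Agent.Helper87.NJ.Crr
import Pool.Agent.Helper38.PUR.Prs
import Pool.Agent.Helper52.MW.Ime

/-! NSLJ, the FIRST OBJECT: a system of the class with a full literal type-label has an event with a literal visible
carrier, of profile `(v + 1) b`. -/

set_option autoImplicit false

namespace Pool.Agent.Helper38.NJ

open Finset Filter Topology Matrix Pool.Agent.Helper69.RK Pool.Agent.Helper31.EC Pool.Agent.Helper31.EC.Sp
open Pool.Agent.Helper40.EL Pool.Agent.Helper89.LX Pool.Agent.Helper84.MT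
open Pool.Agent.Helper36.AM (MCl STu STO)
open Pool.Agent.Helper3.LF (Mon)
open Pool.Agent.Helper29.MX
open Pool.Agent.Helper66.NJ (Kn1 zFD gG_eq)
open Pool.Agent.Helper87.NSL (FmG FmG_of_Adf)
open Pool.Agent.Helper15.FST (gam JT Ful)
open Pool.Agent.Helper38.PUR (LK)
open Pool.Agent.Helper87.NJ

noncomputable section

variable {S T : Sp} {M N D g r : ℕ} {E : ℕ → ℕ} {ι : Type}

/-- a label with forms over a literal label -/
theorem lit_eq {F : FSp} {κ : Type} {W : Setoid F.Ω} (y : FD F κ)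
    (h : y.l = ⟨(FLab.triv F).T, (FLab.triv F).p, (FLab.triv F).hn, W⟩) :
    ∃ (G G' : F.Ω → Matrix κ κ ℝ) (m : ∀ ω ω', F.μ ω ≠ 0 → F.μ ω' ≠ 0 → W ω ω' → F.Z ω ω' → G ω = G ω' ∧ G' ω = G' ω'),
      y = ⟨⟨(FLab.triv F).T, (FLab.triv F).p, (FLab.triv F).hn, W⟩, G, G', m⟩ := by
  obtain ⟨l, G, G', m⟩ := y
  simp only at h
  subst h
  exact ⟨G, G', m, rfl⟩

/-- the label of an admissible literal form -/
theorem lk_of_ful {s : MSys S N (lin g) (Fin r)} {V : Rsl S} {x : ∀ k, FD (S.F k) (Mon N D)}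
    (hx0 : ∀ k, (x k).l = Lab.ofZ V k) (hx : KAd s (rbot S) D 0 x) : LK s (rbot S) V := by
  refine ⟨Eventually.of_forall fun k ω ω' h => ?_, ?_⟩
  · obtain rfl : ω = ω' := h.1
    exact (V k).refl _
  · have h1 := Gau.AdfK.dm (gaq s.Q D) hx
    have e1 : (fun k => (x k).l) = Lab.ofZ V := funext hx0
    rw [e1] at h1
    exact h1

/-- a full label carries one full form of level `1` -/
theorem fuf_of_ful {s : MSys S N (lin g) (Fin r)} {V : Rsl S} (h : Ful s D 0 0 V) :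
    LK s (rbot S) V ∧ ∃ G : ∀ k, (S.F k).Ω → Matrix (Mon N D) (Mon N D) ℝ, Fuf V s.Q D G := by
  obtain ⟨x, hx0, hx1, hx2⟩ := h
  refine ⟨lk_of_ful hx0 hx1, ?_⟩
  choose G G' m hx using fun k => lit_eq (W := V k) (x k) (hx0 k)
  have hk : ∀ k, Kn1 (V k) (G k) := fun k ω ω' a b c d => (m k ω ω' a b c d).1
  have hfm : FmG s.Q x := FmG_of_Adf hx1.1
  have hg : ∀ k, (zFD (V k) (G k)).g = G k := fun k => gG_eq (hk k)
  have hxf : x = fun k => ⟨⟨(FLab.triv (S.F k)).T, (FLab.triv (S.F k)).p, (FLab.triv (S.F k)).hn, V k⟩, G k, G' k, m k⟩ :=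
    funext hx
  subst hxf
  refine ⟨G, Eventually.of_forall hk, ⟨?_, fun η hη => ?_⟩, ?_⟩
  · filter_upwards [hfm.1] with k h1 ω hω
    rw [hg k]
    exact h1 ω hω
  · filter_upwards [hfm.2 η hη] with k h1
    rw [hg k]
    exact h1
  · have e : vol s.Q D (fun k => zFD (V k) (G k)) = vol s.Q D (fun k =>
        (⟨⟨(FLab.triv (S.F k)).T, (FLab.triv (S.F k)).p, (FLab.triv (S.F k)).hn, V k⟩, G k, G' k, m k⟩ :
          FD (S.F k) (Mon N D))) := by
      unfold vol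
      congr 2
      funext k
      rw [hg k]
      rfl
    rw [e]
    linarith

/-- **THE FIRST OBJECT** -/
theorem first_obj (hFDG : ROW_FDG N) (hPTW : ROW_PTW) (hPRW : ROW_PRW) (hRFR : ROW_RFR) (hMEM : ROW_MEM)
    (hCAR : ROW_CAR N) (hFUI : ROW_FUI) (hRDJ : ROW_RDJ N) (hJTI : ROW_JTI N) (hZER : ROW_ZER N)
    {A : MCl N} {C : ℕ → MCl N} (hC : Okc N A C) (hST : ∀ m, m < N → STu m) {v q : ℕ} (hvq : v + 1 + q = N)
    (hSTO : STO N (Cv A (v + 1))) {m g r e0 : ℕ} {E : Fin N → ℝ} {d : ℝ} (hg : 1 ≤ g) (hr : 0 < r) (hN : 1 ≤ N)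
    (hd : 0 < d) (hE : ∀ j, 0 ≤ E j ∧ E j < 1) (hgam : ∀ b : ℝ, 0 < b → b ≤ 1 → gam E b < (N - v) * b)
    {S : Sp} {s : MSys S N (lin g) (Fin r)} (hs : JT (C m) v g r e0 E d S s) {D : ℕ} {V : Rsl S} (hD : 1 ≤ D)
    (hV : Ful s D 0 0 V) :
    ∃ (T : Sp) (t : MSys T N (lin g) (Fin r)) (W : Rsl T), JT (C m) v g r e0 E d T t ∧ Lt t ∧ PO t W ∧
      Pfl (fun b => (v + 1) * b) t W := by
  obtain ⟨hs', hlt, hful⟩ := hRDJ A C hC m v g r e0 E d S s hE hs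
  have hf := hful D V hD hV
  obtain ⟨T, p, B, hB, hpf⟩ := hZER A C hC hST v hSTO m g r e0 E d hg hr hN hd hE hgam S (rd s) hs' D V hD hf
  have hs1 := (hJTI A C hC m v g r e0 E d S (rd s) hg hr hs' T p).2 B hB
  have hlt1 : Lt ((rd s).im p B hB) := Pool.Agent.Helper52.MW.Pt_im hlt p B hB
  obtain ⟨hLK, G, hG⟩ := fuf_of_ful hf
  have hLK1 := hLK.im p B hB
  have hG1 := hFUI N D S T V (rd s).Q G p B hB hG
  obtain ⟨T', P, g', D₁, W, -, -, hPO, -, hW⟩ := carr hFDG hPTW hPRW hRFR hMEM hCAR hC.oA hST hvq hSTO hr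
    (s := (rd s).im p B hB) (hC.le m _ _ _ _ hs1.cl) hlt1 (V := V) (fun i => hLK1.2 (some i)) hD hG1
    (f := fun b => (v + 1) * b) hpf ⟨1, one_pos, fun η _ _ => le_rfl⟩
  refine ⟨T', ((rd s).im p B hB).pull P, W, ?_, pt_pull hlt1 P, hPO, hW⟩
  exact (hJTI A C hC m v g r e0 E d _ ((rd s).im p B hB) hg hr hs1 T' P).1

end

end Pool.Agent.Helper38.NJ
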