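import Pool.Agent.Helper38.NJ.Zrow
import Pool.Agent.Helper18.PSH.Cutz

/-! Row [ZER] of `Helper87/NJ/St.lean`, no hypotheses. -/

set_option autoImplicit false

namespace Pool.Agent.Helper38.NJ

open Pool.Agent.Helper87.NJ

/-- [ZER] -/
theorem row_zer (N : ℕ) : ROW_ZER N := row_zer_of Pool.Agent.Helper18.PSH.st_cutn0 N

end Pool.Agent.Helper38.NJ
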