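import Pool.Agent.Helper38.NJ.Clo
import Pool.Agent.Helper84.MT.Evt

/-! THE COST PROPERTY PASSES TO EXTENSIONS AND TO EVENTS. A label with a coefficient over the restriction becomes a label
over the whole space (with a constant unit coefficient outside of the event); its information is the mass of the event
times the old information, plus one bit, and its gain is at least the mass times the old gain. -/

set_option autoImplicit false

namespace Pool.Agent.Helper38.NJ

open Finset Filter Topology Matrix Pool.Agent.Helper69.RK Pool.Agent.Helper31.EC Pool.Agent.Helper31.EC.Sp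
open Pool.Agent.Helper40.EL
open Pool.Agent.Helper84.MT Pool.Agent.Helper3.LF Pool.Agent.Helper59.LF Pool.Agent.Helper89.LX
open Pool.Agent.Helper48.NS Pool.Agent.Helper48.LIP Pool.Agent.Helper38.NSL Pool.Agent.Helper87.NSL
open Pool.Agent.Helper95.LF (PdM)
open Pool.Agent.Helper52.KP (glue gπ gμ gT gT_law glue_info)

noncomputable section

variable {S : Sp} {M D : ℕ} {E : ℕ → ℕ} {ι κ X : Type}

/-- the identity projection -/
def idp (F : FSp) : FPj F F := (FLab.triv F).p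

/-- the space over a restricted label and the restriction of the space over the label -/
def ovR (x : ∀ k, FD (S.F k) κ) (A : ∀ k, ((lbS x).sp.F k).Ω → Prop) (k : ℕ) :
    FPj ((Ov (reS x A)).F k) (FSp.im (idp ((Ov x).F k)) (A k)) where
  π := fun ω => ω
  law := rfl
  hZ := fun _ _ _ _ => Iff.rfl

/-- a label with coefficient of the restriction as a label with coefficient of the space -/
def gCL (x : ∀ k, FD (S.F k) κ) (A : ∀ k, ((lbS x).sp.F k).Ω → Prop) (k : ℕ) (u : Matrix κ κ ℝ → X)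
    (y : CL ((Ov (reS x A)).F k) X) : CL ((Ov x).F k) X where
  l := glue (idp ((Ov x).F k)) (A k) (FLab.down (ovR x A k) rfl y.l)
    (FLab.triv (FSp.im (idp ((Ov x).F k)) (fun ω => ¬ A k ω)))
  c := Sum.elim y.c (fun ω => u ((x k).g ω))
  meas := by
    intro w w' h h' hV hZ
    rcases w with a | a <;> rcases w' with b | b
    · have k1 : y.l.T.μ a ≠ 0 := right_ne_zero_of_mul h
      have k2 : y.l.T.μ b ≠ 0 := right_ne_zero_of_mul h'
      have hV' : Sum.map (Quotient.mk y.l.V) (Quotient.mk (⊤ : Setoid ((Ov x).F k).Ω))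
        (Sum.inl a : y.l.T.Ω ⊕ ((Ov x).F k).Ω) =
        Sum.map (Quotient.mk y.l.V) (Quotient.mk (⊤ : Setoid ((Ov x).F k).Ω)) (Sum.inl b) := hV
      rw [Sum.map_inl, Sum.map_inl, Sum.inl.injEq] at hV'
      have k3 : y.l.T.Z a b := (y.l.p.hZ a b k1 k2).mpr hZ
      exact y.meas a b k1 k2 (Quotient.eq (r := y.l.V).mp hV') k3
    · have hV' : Sum.map (Quotient.mk y.l.V) (Quotient.mk (⊤ : Setoid ((Ov x).F k).Ω))
        (Sum.inl a : y.l.T.Ω ⊕ ((Ov x).F k).Ω) =
        Sum.map (Quotient.mk y.l.V) (Quotient.mk (⊤ : Setoid ((Ov x).F k).Ω)) (Sum.inr b) := hV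
      rw [Sum.map_inl, Sum.map_inr] at hV'
      exact absurd hV' (by simp)
    · have hV' : Sum.map (Quotient.mk y.l.V) (Quotient.mk (⊤ : Setoid ((Ov x).F k).Ω))
        (Sum.inr a : y.l.T.Ω ⊕ ((Ov x).F k).Ω) =
        Sum.map (Quotient.mk y.l.V) (Quotient.mk (⊤ : Setoid ((Ov x).F k).Ω)) (Sum.inl b) := hV
      rw [Sum.map_inr, Sum.map_inl] at hV'
      exact absurd hV' (by simp)
    · have k1 : (FSp.im (idp ((Ov x).F k)) (fun ω => ¬ A k ω)).μ a ≠ 0 := right_ne_zero_of_mul h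
      have k2 : (FSp.im (idp ((Ov x).F k)) (fun ω => ¬ A k ω)).μ b ≠ 0 := right_ne_zero_of_mul h'
      have k3 := FSp.im_supp (idp ((Ov x).F k)) (fun ω => ¬ A k ω) a k1
      have k4 := FSp.im_supp (idp ((Ov x).F k)) (fun ω => ¬ A k ω) b k2
      have k5 : (x k).l.V a b ∧ (x k).l.T.Z a b := hZ
      show u ((x k).g a) = u ((x k).g b)
      rw [((x k).meas a b k3 k4 k5.1 k5.2).1]

theorem gCL_good (x : ∀ k, FD (S.F k) κ) [Fintype κ] (A : ∀ k, ((lbS x).sp.F k).Ω → Prop) (k : ℕ)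
    (u : Matrix κ κ ℝ → κ → ℝ) (y : CL ((Ov (reS x A)).F k) (κ → ℝ))
    (hu : ∀ ω, (x k).l.T.μ ω ≠ 0 → UnitC ((x k).g ω) (u ((x k).g ω))) (hy : y.Good (GdC (reS x A) k)) :
    (gCL x A k u y).Good (GdC x k) := by
  intro w hw
  rcases w with a | a
  · exact hy a (right_ne_zero_of_mul hw)
  · have k1 : (FSp.im (idp ((Ov x).F k)) (fun ω => ¬ A k ω)).μ a ≠ 0 := right_ne_zero_of_mul hw
    exact hu a (FSp.im_supp (idp ((Ov x).F k)) (fun ω => ¬ A k ω) a k1)

theorem gCL_info (x : ∀ k, FD (S.F k) κ) (A : ∀ k, ((lbS x).sp.F k).Ω → Prop) (k : ℕ) (u : Matrix κ κ ℝ → X)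
    (y : CL ((Ov (reS x A)).F k) X) : (gCL x A k u y).l.info ≤ (lbS x).sp.pr A k * y.l.info + 1 := by
  have h1 := glue_info (idp ((Ov x).F k)) (A k) (FLab.down (ovR x A k) rfl y.l)
    (FLab.triv (FSp.im (idp ((Ov x).F k)) (fun ω => ¬ A k ω)))
  rw [FLab.triv_info, mul_zero, add_zero, abs_le] at h1
  have h2 := FLab.down_info_le (ovR x A k) rfl y.l
  have h3 : (lbS x).sp.pr A k = ((Ov x).F k).pb (A k) := rfl
  have h4 := mul_le_mul_of_nonneg_left h2 (((Ov x).F k).pb_nonneg (A k))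
  rw [h3]
  have h5 : (gCL x A k u y).l.info = (glue (idp ((Ov x).F k)) (A k) (FLab.down (ovR x A k) rfl y.l)
    (FLab.triv (FSp.im (idp ((Ov x).F k)) (fun ω => ¬ A k ω)))).info := rfl
  rw [h5]
  linarith [h1.2]

theorem gCL_E (x : ∀ k, FD (S.F k) κ) (A : ∀ k, ((lbS x).sp.F k).Ω → Prop) (k : ℕ) (u : Matrix κ κ ℝ → X)
    (y : CL ((Ov (reS x A)).F k) X) (f : (x k).l.T.Ω → X → ℝ) (hf : ∀ ω c, 0 ≤ f ω c) :
    (lbS x).sp.pr A k * CL.E y f ≤ CL.E (gCL x A k u y) f := by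
  have e0 : CL.E (gCL x A k u y) f = ∑ a, ((lbS x).sp.pr A k * y.l.T.μ a) * f (y.l.p.π a) (y.c a) +
      ∑ a, ((1 - (lbS x).sp.pr A k) * (FSp.im (idp ((Ov x).F k)) (fun ω => ¬ A k ω)).μ a) *
        f a (u ((x k).g a)) := Fintype.sum_sum_type _
  rw [e0]
  have e1 : (lbS x).sp.pr A k * CL.E y f = ∑ a, ((lbS x).sp.pr A k * y.l.T.μ a) * f (y.l.p.π a) (y.c a) := by
    unfold CL.E
    rw [Finset.mul_sum]
    exact Finset.sum_congr rfl fun a _ => (mul_assoc _ _ _).symm
  rw [e1]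
  have e2 : 0 ≤ ∑ a, ((1 - (lbS x).sp.pr A k) * (FSp.im (idp ((Ov x).F k)) (fun ω => ¬ A k ω)).μ a) *
        f a (u ((x k).g a)) := by
    apply Finset.sum_nonneg
    intro a _
    exact mul_nonneg (mul_nonneg (sub_nonneg.mpr (pr_le_one A k)) (FSp.nn _ _)) (hf _ _)
  linarith

/-- [CSE] THE COST PROPERTY PASSES TO EVENTS of the space of the label -/
theorem CostP.re {s : MSys S M E ι} {c : ℝ} {x : ∀ k, FD (S.F k) (Mon M D)} (hx : CostP s D c x)
    (hP : ∀ᶠ k in UF, ∀ ω, (x k).l.T.μ ω ≠ 0 → Cpd ((gaq s.Q D).cp k) ((x k).g ω))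
    (A : ∀ k, ((lbS x).sp.F k).Ω → Prop) (hA : 0 < ul ((lbS x).sp.pr A)) :
    CostP (s.im (lbS x).pj A hA) D c (reS x A) := by
  intro E₀ h0 h1 y hy hU
  have : Nonempty (Mon M D) := ⟨⟨fun _ => 0, by simp⟩⟩
  set u : Matrix (Mon M D) (Mon M D) ℝ → Mon M D → ℝ := fun B => cof B 0 1 with hu
  set z : ∀ k, CL ((Ov x).F k) (Mon M D → ℝ) := fun k => gCL x A k u (y k) with hz
  have hzg : ∀ᶠ k in UF, (z k).Good (GdC x k) := by
    filter_upwards [hP, hy] with k hk hk2
    refine gCL_good x A k u (y k) (fun ω hω => ?_) hk2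
    have hc := hk ω hω
    have h3 := (cof_spec (A' := 0) hc.1 (fun v hv => hc.pd hv) Matrix.isSymm_zero (fun v => by
      unfold qf
      rw [Matrix.zero_mulVec, dotProduct_zero]) one_pos).1
    exact h3
  set P := ul ((lbS x).sp.pr A) with hPdef
  have tP : Tendsto (fun k => (lbS x).sp.pr A k) UF (𝓝 P) := ul_tendsto (UB_pr A)
  have hn : ∀ k, ((Ov (reS x A)).F k).n = (S.F k).n := fun k => Ov_n (reS x A) k
  have tI : Tendsto (fun k => (lbS x).sp.pr A k * ((y k).l.info / ((Ov (reS x A)).F k).n) + 1 / (S.F k).n) UF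
      (𝓝 (P * ul (fun k => (y k).l.info / ((Ov (reS x A)).F k).n))) := by
    have := (tP.mul (ul_tendsto hU)).add (S.div_n_tendsto 1)
    rwa [add_zero] at this
  have hle : ∀ k, (z k).l.info / ((Ov x).F k).n ≤
      (lbS x).sp.pr A k * ((y k).l.info / ((Ov (reS x A)).F k).n) + 1 / (S.F k).n := by
    intro k
    rw [hn k, Ov_n x k, ← mul_div_assoc, ← add_div]
    exact div_le_div_of_nonneg_right (gCL_info x A k u (y k)) (S.F k).pos.le
  have hUz : UB (fun k => (z k).l.info / ((Ov x).F k).n) := by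
    obtain ⟨C, hC⟩ := hU
    have h2 : ∀ᶠ k in UF, (1 : ℝ) ≤ (S.F k).n := S.lim.eventually (eventually_ge_atTop 1)
    apply UB_of_nonneg_le (C := C + 1)
    · exact Eventually.of_forall fun k => div_nonneg (FLab.info_nonneg _) ((Ov x).F k).pos.le
    · filter_upwards [hC, h2] with k hk hk2
      refine (hle k).trans ?_
      have h3 : 0 ≤ (y k).l.info / ((Ov (reS x A)).F k).n :=
        div_nonneg (FLab.info_nonneg _) ((Ov (reS x A)).F k).pos.le
      have h4 : (y k).l.info / ((Ov (reS x A)).F k).n ≤ C := (le_abs_self _).trans hk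
      have h5 := mul_le_of_le_one_left h3 (pr_le_one A k)
      have h6 : 1 / (S.F k).n ≤ 1 := by
        rw [div_le_one (S.F k).pos]
        exact hk2
      linarith
  have hmain := hx E₀ h0 h1 z hzg hUz
  have h7 : ul (fun k => (z k).l.info / ((Ov x).F k).n) ≤
      P * ul (fun k => (y k).l.info / ((Ov (reS x A)).F k).n) :=
    le_of_tendsto_of_tendsto (ul_tendsto hUz) tI (Eventually.of_forall hle)
  have hUE : UB (fun k => (y k).E (fex (gaq (s.im (lbS x).pj A hA).Q D) (reS x A) E₀ k)) := by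
    apply UB_of_nonneg_le (C := E₀)
    · exact Eventually.of_forall fun k => (y k).E_nonneg _ (fun ω c => ex_nonneg (S.F k).pos h0)
    · exact Eventually.of_forall fun k => (y k).E_le _ _ (fun ω c => ex_le (S.F k).pos)
  have hUEz : UB (fun k => (z k).E (fex (gaq s.Q D) x E₀ k)) := by
    apply UB_of_nonneg_le (C := E₀)
    · exact Eventually.of_forall fun k => (z k).E_nonneg _ (fun ω c => ex_nonneg (S.F k).pos h0)
    · exact Eventually.of_forall fun k => (z k).E_le _ _ (fun ω c => ex_le (S.F k).pos)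
  have h8 : P * ul (fun k => (y k).E (fex (gaq (s.im (lbS x).pj A hA).Q D) (reS x A) E₀ k)) ≤
      ul (fun k => (z k).E (fex (gaq s.Q D) x E₀ k)) := by
    refine le_of_tendsto_of_tendsto (tP.mul (ul_tendsto hUE)) (ul_tendsto hUEz) (Eventually.of_forall fun k => ?_)
    exact gCL_E x A k u (y k) (fex (gaq s.Q D) x E₀ k) (fun ω c => ex_nonneg (S.F k).pos h0)
  have h9 := mul_le_mul_of_nonneg_left h7 (Nat.cast_nonneg (E D) : (0 : ℝ) ≤ (E D : ℝ))
  have h10 : P * ul (fun k => (y k).E (fex (gaq (s.im (lbS x).pj A hA).Q D) (reS x A) E₀ k)) ≤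
      P * (E D * ul (fun k => (y k).l.info / ((Ov (reS x A)).F k).n)) := by
    refine (h8.trans (hmain.trans h9)).trans (le_of_eq ?_)
    ring
  exact le_of_mul_le_mul_left h10 hA

/-! ### extensions of the space of the label -/

/-- a label with forms, read in an extension of its space -/
def exFD {F : FSp} (x : FD F κ) {T' : FSp} (r : FPj T' x.l.T) (hn : T'.n = x.l.T.n) : FD F κ where
  l := x.l.ext r hn
  g := fun w => x.g (r.π w)
  g' := fun w => x.g' (r.π w)
  meas := fun w w' h h' hV hZ => x.meas _ _ (r.supp w h) (r.supp w' h') hV ((r.hZ w w' h h').mp hZ)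

/-- sequences -/
def exS (x : ∀ k, FD (S.F k) κ) (T' : ℕ → FSp) (r : ∀ k, FPj (T' k) (x k).l.T) (hn : ∀ k, (T' k).n = (x k).l.T.n) :
    ∀ k, FD (S.F k) κ := fun k => exFD (x k) (r k) (hn k)

/-- the spaces over the labels -/
def ovE (x : ∀ k, FD (S.F k) κ) (T' : ℕ → FSp) (r : ∀ k, FPj (T' k) (x k).l.T) (hn : ∀ k, (T' k).n = (x k).l.T.n)
    (k : ℕ) : FPj ((Ov (exS x T' r hn)).F k) ((Ov x).F k) where
  π := (r k).π
  law := (r k).law
  hZ := fun w w' h h' => ⟨fun h1 => ⟨h1.1, ((r k).hZ w w' h h').mp h1.2⟩,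
    fun h1 => ⟨h1.1, ((r k).hZ w w' h h').mpr h1.2⟩⟩

/-- THE COST PROPERTY PASSES TO EXTENSIONS of the space of the label -/
theorem CostP.ex {s : MSys S M E ι} {c : ℝ} {x : ∀ k, FD (S.F k) (Mon M D)} (hx : CostP s D c x)
    (T' : ℕ → FSp) (r : ∀ k, FPj (T' k) (x k).l.T) (hn : ∀ k, (T' k).n = (x k).l.T.n) :
    CostP s D c (exS x T' r hn) := by
  intro E₀ h0 h1 y hy hU
  have hn' : ∀ k, ((Ov (exS x T' r hn)).F k).n = ((Ov x).F k).n := fun k =>
    (Ov_n (exS x T' r hn) k).trans (Ov_n x k).symm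
  set z : ∀ k, CL ((Ov x).F k) (Mon M D → ℝ) := fun k =>
    { l := FLab.down (ovE x T' r hn k) (hn' k) (y k).l
      c := (y k).c
      meas := fun w w' h h' hV hZ => (y k).meas w w' h h' hV hZ } with hz
  have hle : ∀ k, (z k).l.info / ((Ov x).F k).n ≤ (y k).l.info / ((Ov (exS x T' r hn)).F k).n := by
    intro k
    rw [hn' k]
    exact div_le_div_of_nonneg_right (FLab.down_info_le (ovE x T' r hn k) (hn' k) (y k).l) ((Ov x).F k).pos.le
  have hUz : UB (fun k => (z k).l.info / ((Ov x).F k).n) := by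
    obtain ⟨C, hC⟩ := hU
    apply UB_of_nonneg_le (C := C)
    · exact Eventually.of_forall fun k => div_nonneg (FLab.info_nonneg _) ((Ov x).F k).pos.le
    · filter_upwards [hC] with k hk
      exact (hle k).trans ((le_abs_self _).trans hk)
  have h2 := hx E₀ h0 h1 z (by
    filter_upwards [hy] with k hk w hw
    exact hk w hw) hUz
  refine le_trans h2 (mul_le_mul_of_nonneg_left ?_ (Nat.cast_nonneg _))
  exact ul_mono hUz hU (Eventually.of_forall hle)

/-! ### forms and leaks -/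

theorem FmG.ex {Q : S.VV M} {x : ∀ k, FD (S.F k) (Mon M D)} (hF : FmG Q x) (T' : ℕ → FSp)
    (r : ∀ k, FPj (T' k) (x k).l.T) (hn : ∀ k, (T' k).n = (x k).l.T.n) : FmG Q (exS x T' r hn) := by
  refine ⟨?_, fun η hη => ?_⟩
  · filter_upwards [hF.1] with k hk w hw
    exact hk _ ((r k).supp w hw)
  · filter_upwards [hF.2 η hη] with k hk
    have h3 := pb_push (r k) (fun w => ¬ (gaq Q D).φ k ((x k).l.p.π w) ((x k).g w) ≤ 2 ^ (η * (S.F k).n))
    exact h3.le.trans hk

theorem FmG.re {Q : S.VV M} {x : ∀ k, FD (S.F k) (Mon M D)} (hF : FmG Q x)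
    (A : ∀ k, ((lbS x).sp.F k).Ω → Prop) (hA : 0 < ul ((lbS x).sp.pr A)) :
    FmG (Q.im (lbS x).pj A) (reS x A) := by
  refine ⟨?_, fun η hη => ?_⟩
  · filter_upwards [hF.1] with k hk w hw
    exact hk _ ((x k).l.T.rest_supp (A k) w hw).1
  · set r := ul ((lbS x).sp.pr A) with hr
    have hr1 : r ≤ 1 := ul_pr_le_one A
    have hη' : 0 < η * r / 2 := by positivity
    have hle : η * r / 2 ≤ η := by nlinarith
    filter_upwards [hF.2 _ hη', pr_half' hA] with k hk hp
    have hn0 := (S.F k).pos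
    have hpb : r / 2 ≤ (x k).l.T.pb (A k) := hp
    have hthr : (2 : ℝ) ^ (η * r / 2 * (S.F k).n) ≤ 2 ^ (η * (S.F k).n) :=
      Real.rpow_le_rpow_of_exponent_le (by norm_num) (mul_le_mul_of_nonneg_right hle hn0.le)
    have h1 := pb_rest_le (x k).l.T (A k) (fun ω => ¬ (gaq Q D).φ k ((x k).l.p.π ω) ((x k).g ω) ≤
      2 ^ (η * (S.F k).n)) (r / 2) (by positivity) hpb
    have h2 : (x k).l.T.pb (fun ω => ¬ (gaq Q D).φ k ((x k).l.p.π ω) ((x k).g ω) ≤ 2 ^ (η * (S.F k).n)) ≤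
        (x k).l.T.pb (fun ω => ¬ (gaq Q D).φ k ((x k).l.p.π ω) ((x k).g ω) ≤ 2 ^ (η * r / 2 * (S.F k).n)) :=
      (x k).l.T.pb_mono fun ω _ hω h3 => hω (le_trans h3 hthr)
    have h3 : ((x k).l.T.rest (A k)).pb (fun ω => ¬ (gaq Q D).φ k ((x k).l.p.π ω) ((x k).g ω) ≤
      2 ^ (η * (S.F k).n)) ≤ η := by
      refine h1.trans ?_
      rw [div_le_iff₀ (by positivity)]
      nlinarith
    exact h3

/-- leaks in an extension of the space of the label -/
theorem leak_ex (x : ∀ k, FD (S.F k) κ) (T' : ℕ → FSp) (r : ∀ k, FPj (T' k) (x k).l.T)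
    (hn : ∀ k, (T' k).n = (x k).l.T.n) (B : Part S) (k : ℕ) :
    (exS x T' r hn k).l.leak (B k) = (x k).l.leak (B k) := FLab.ext_leak (x k).l (r k) (hn k) (B k)

/-- leaks on events -/
theorem leak_re {x : ∀ k, FD (S.F k) κ} {B : Part S} (hL : Nul S (fun k => (x k).l.leak (B k)))
    (A : ∀ k, ((lbS x).sp.F k).Ω → Prop) (hA : 0 < ul ((lbS x).sp.pr A)) :
    Nul (Sp.im (lbS x).pj A) (fun k => (reS x A k).l.leak (B.im (lbS x).pj A k)) := by
  have hA' : Nul (lbS x).sp (fun k => (x k).l.leak (B k)) := by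
    unfold Nul at hL ⊢
    have e : (fun k => (x k).l.leak (B k) / ((lbS x).sp.F k).n) = fun k => (x k).l.leak (B k) / (S.F k).n := by
      funext k
      rw [show ((lbS x).sp.F k).n = (S.F k).n from (x k).l.hn]
    rw [e]; exact hL
  have h1 : Nul (lbS x).sp (fun k => (reS x A k).l.leak (B.im (lbS x).pj A k)) :=
    Nul.div_pr hA hA' (fun k => FLab.leak_nonneg _ _) (fun k => (x k).l.im_leak (A k) (B k))
  unfold Nul at h1 ⊢
  have e : (fun k => (reS x A k).l.leak (B.im (lbS x).pj A k) / ((Sp.im (lbS x).pj A).F k).n) =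
      fun k => (reS x A k).l.leak (B.im (lbS x).pj A k) / ((lbS x).sp.F k).n := by
    funext k
    rw [show ((lbS x).sp.F k).n = (S.F k).n from (x k).l.hn]
    rfl
  rw [e]; exact h1

end

end Pool.Agent.Helper38.NJ
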