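import Pool.Agent.Helper87.NSL.Cla
import Pool.Agent.Helper15.FST.St
import Pool.Agent.Helper38.NJ.Cse

/-! [ZER], the core: a transversal system (with a threshold) whose types have `v` unit directions has no type-form of volume
at most `v`. The closing argument is applied to an OPTIMAL form (it has the cost property): its label knows as much about
the point as every window, so its form is known to all windows. -/

set_option autoImplicit false

namespace Pool.Agent.Helper38.NJ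

open Finset Filter Topology Matrix Pool.Agent.Helper69.RK Pool.Agent.Helper31.EC Pool.Agent.Helper31.EC.Sp
open Pool.Agent.Helper40.EL
open Pool.Agent.Helper84.MT Pool.Agent.Helper3.LF Pool.Agent.Helper59.LF Pool.Agent.Helper89.LX
open Pool.Agent.Helper48.NS Pool.Agent.Helper48.LIP Pool.Agent.Helper38.NSL Pool.Agent.Helper87.NSL
open Pool.Agent.Helper95.LF (PdM)
open Pool.Agent.Helper29.MX

noncomputable section

variable {S : Sp} {M N D g r v : ℕ} {E : ℕ → ℕ} {ι : Type}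

/-- CLAIM with threshold, optimal K-forms -/
theorem claimKt_vol [Finite ι] {κ : Type} [Finite κ] [Nonempty κ] (s : MSys S M E ι) (hED : 1 ≤ E D) {c : ℝ} (h0 : 0 ≤ c)
    (h1 : c < 1) (R : ∀ k, Setoid (S.F k).Ω) (hR : ∀ k, R k ≤ Setoid.ker (s.Q.cellv 1 k)) (V : κ → ι) {K g₀ : ℝ}
    (hN : NHEt s.Q D (optW R fun j => wn s c (V j)) K g₀) (hK : 0 ≤ K) (hg : 0 ≤ g₀)
    {x : ∀ k, FD (S.F k) (Mon M D)} (hx : (gaq s.Q D).OptfK (LC.kz (fun k => fc (R k))) (cndR s R c) x)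
    (hH : ∀ j, HLe s c (V j) x) : (M : ℝ) - g₀ ≤ vol s.Q D x :=
  hN.vol_geK hK hg hx.1.1 hx.1.2 (fun j => knJ_iff.mp (lemA s hED h0 h1 (FmG_of_Adf hx.1.1)
    (Pool.Agent.Helper17.KL.costP_of_optK s hED h0 h1 R hR hx) (V j) (Gau.Adf.dm _ hx.1.1 (some (V j))) (hH j)))

/-- the entropy rate of the point over the label -/
theorem hRt_le (s : MSys S M E ι) (x : ∀ k, FD (S.F k) (Mon M D)) :
    ul (hRt s x) ≤ H (up1 (lb x) (s.Q.dg 1)) := by
  rw [Pool.Agent.Helper49.MD.H_up1_eq]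
  have e1 : s.Q.dg 1 = cl (s.Q.bdd 1).toInf := io_eq (s.Q.bdd 1)
  have h1 : PLe (rpI (s.Q.bdd 1).toInf) (rp (s.Q.dg 1)) := by
    rw [e1]
    exact (rp_rpI (s.Q.bdd 1).toInf).2
  have hu : UB fun k => h ((x k).l.p.map (rp (s.Q.dg 1) k)) (x k).l.v / (S.F k).n := by
    refine UB.sandwich (UB_const 0) ((rp_Bd (s.Q.dg 1)).ub (fun _ => ⊥)) ?_ ?_
    · exact Eventually.of_forall fun k => div_nonneg (h_nonneg _ _) (S.F k).pos.le
    · refine Eventually.of_forall fun k => div_le_div_of_nonneg_right ?_ (S.F k).pos.le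
      rw [h_bot, ← (x k).l.p.H_map]
      exact h_le_H _ _
  have t1 := (ul_tendsto hu).add h1
  rw [add_zero] at t1
  refine le_of_tendsto_of_tendsto (ul_tendsto (hRt_UB s x)) t1 (Eventually.of_forall fun k => ?_)
  show h ((x k).l.p.map (ptF s.Q k)) (x k).l.v / (S.F k).n ≤
    h ((x k).l.p.map (rp (s.Q.dg 1) k)) (x k).l.v / (S.F k).n + h (rpI (s.Q.bdd 1).toInf k) (rp (s.Q.dg 1) k) / (S.F k).n
  rw [← add_div]
  apply div_le_div_of_nonneg_right _ (S.F k).pos.le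
  have h3 := h_triangle ((x k).l.p.map (ptF s.Q k)) ((x k).l.p.map (rp (s.Q.dg 1) k)) (x k).l.v
  have h4 : h ((x k).l.p.map (ptF s.Q k)) ((x k).l.p.map (rp (s.Q.dg 1) k) ⊔ (x k).l.v) ≤
      h ((x k).l.p.map (ptF s.Q k)) ((x k).l.p.map (rp (s.Q.dg 1) k)) := h_anti le_sup_left
  rw [(x k).l.p.h_map] at h4
  have h5 : h (ptF s.Q k) (rp (s.Q.dg 1) k) = h (rpI (s.Q.bdd 1).toInf k) (rp (s.Q.dg 1) k) := rfl
  linarith

/-- volume bounds the entropy of the point over the label -/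
theorem hRt_le_vol (s : MSys S M E ι) (hD : 1 ≤ D) {κ : Type} {A : κ → Part S} {x : ∀ k, FD (S.F k) (Mon M D)}
    (hx : (gaq s.Q D).Adf A x) : ul (hRt s x) ≤ vol s.Q D x :=
  (hRt_le s x).trans (Pool.Agent.Helper14.MC.cnt_vol s.Q hD x hx)

/-- [ZER], core: no type-form (K-form) of the window `0` whose volume is at most the number of unit directions -/
theorem zer0 [Finite ι] [Nonempty ι] {s : MSys S N E ι} (hED : 1 ≤ E D) (hD : 1 ≤ D) {R : ∀ k, Setoid (S.F k).Ω}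
    (hR : ∀ k, R k ≤ Setoid.ker (s.Q.cellv 1 k)) {K g₀ : ℝ} (hK : 0 ≤ K) (hg : 0 ≤ g₀)
    (hN : NHEt s.Q D (optW R fun j => wn s 0 j) K g₀) {w : ℝ}
    (hw : ∀ j, ∀ ε : ℝ, 0 < ε → ∀ᶠ k in UF, (w - ε) * (S.F k).n ≤ h (ptF s.Q k) ((s.lf j).win 0 k))
    {y : ∀ k, FD (S.F k) (Mon N D)} (hy : KAd s R D 0 y) (hv : vol s.Q D y ≤ w) : N - g₀ ≤ w := by
  obtain ⟨x, hx⟩ := (gaq s.Q D).exists_optfK (KZ R) (cndR s R 0)
  have h1 : vol s.Q D x ≤ vol s.Q D y := by
    have h2 := volK_le_of hy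
    rwa [volK_of_opt (s := s) (R := R) (D := D) (c := 0) hx] at h2
  have h3 := hRt_le_vol s hD hx.1.1
  have h4 : ∀ j, HLe s 0 j x := fun j => by
    refine HLe_of_num (v := w) (fun ε hε => ?_) (hw j)
    filter_upwards [(ul_tendsto (hRt_UB s x)).eventually (gt_mem_nhds (show ul (hRt s x) < w + ε by linarith))] with k hk
    unfold hRt at hk
    rw [div_lt_iff₀ (S.F k).pos] at hk
    exact hk.le
  have h5 := claimKt_vol s hED le_rfl one_pos R hR (fun j : ι => j) hN hK hg hx h4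
  linarith

end

end Pool.Agent.Helper38.NJ
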