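import Pool.Agent.Helper38.NJ.Zer2
import Pool.Agent.Helper87.NJ.St

/-! Row [ZER] of `Helper87/NJ/St.lean`. -/

set_option autoImplicit false

namespace Pool.Agent.Helper38.NJ

open Pool.Agent.Helper87.NJ

/-- [ZER], from [CUTN] -/
theorem row_zer_of (hC : ST_CUTN0) (N : ℕ) : ROW_ZER N := by
  intro A C _ hST v _ m g r e0 E d hg hr _ hd hE hgam S s hs D V hD hf
  obtain ⟨T, p, B, hB, h⟩ := zer' hC hST hg hr hd hE hgam hs hD hf
  exact ⟨T, p, B, hB, h⟩

end Pool.Agent.Helper38.NJ
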